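import Pool.Agent.Lib_helper12.HE.Defs
import Pool.Agent.Lib_helper59.PV.NearIsoCore

/-! Project HE (MP_b08f5f_an), block D: dynamics of a cluster of `N - 1` vortices and an outlier
over one period of the ideal motion. -/

set_option autoImplicit false

namespace Pool.Agent.Lib_helper12.HE

open MeasureTheory Filter Topology Set
open scoped ComplexConjugate ENNReal
open Pool.Agent.Lib_helper25.PV (Conf vel Motion centre inertia NC VFlow)

noncomputable section

theorem D_card {N : ℕ} (hN : 1 ≤ N) (o : Fin N) :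
    (((Finset.univ.erase o).card : ℕ) : ℂ) = (N : ℂ) - 1 := by
  rw [Finset.card_erase_of_mem (Finset.mem_univ _), Finset.card_univ, Fintype.card_fin,
    Nat.cast_sub hN, Nat.cast_one]

theorem D_sum_u {N : ℕ} (hN : 3 ≤ N) (o : Fin N) {y : Conf N} (hs : ∑ i, y i = 0) :
    ∑ j ∈ Finset.univ.erase o, (y j - -(y o / ((N : ℂ) - 1))) = 0 := by
  have h1 : y o + ∑ j ∈ Finset.univ.erase o, y j = ∑ j, y j :=
    Finset.add_sum_erase _ _ (Finset.mem_univ o)
  have hN1 : ((N : ℂ) - 1) ≠ 0 := by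
    have h3 : (N : ℝ) - 1 ≠ 0 := by
      have : (3 : ℝ) ≤ N := by exact_mod_cast hN
      linarith
    exact_mod_cast h3
  rw [Finset.sum_sub_distrib, Finset.sum_const, nsmul_eq_mul, D_card (by omega)]
  rw [hs] at h1
  field_simp
  linear_combination h1

theorem D_sum_sq {N : ℕ} (hN : 3 ≤ N) (o : Fin N) {y : Conf N} (hs : ∑ i, y i = 0)
    (hq : ∑ i, ‖y i‖ ^ 2 = (N : ℝ)) :
    ∑ j ∈ Finset.univ.erase o, ‖y j - -(y o / ((N : ℂ) - 1))‖ ^ 2 = spread o y := by
  have h1 : y o + ∑ j ∈ Finset.univ.erase o, y j = ∑ j, y j :=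
    Finset.add_sum_erase _ _ (Finset.mem_univ o)
  have h2 : ‖y o‖ ^ 2 + ∑ j ∈ Finset.univ.erase o, ‖y j‖ ^ 2 = ∑ j, ‖y j‖ ^ 2 :=
    Finset.add_sum_erase _ (fun j => ‖y j‖ ^ 2) (Finset.mem_univ o)
  have h3 : (N : ℝ) - 1 ≠ 0 := by
    have : (3 : ℝ) ≤ N := by exact_mod_cast hN
    linarith
  have hN1 : ((N : ℂ) - 1) ≠ 0 := by exact_mod_cast h3
  have key : ((∑ j ∈ Finset.univ.erase o, ‖y j - -(y o / ((N : ℂ) - 1))‖ ^ 2 : ℝ) : ℂ)
      = ((spread o y : ℝ) : ℂ) := by
    rw [Complex.ofReal_sum]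
    have h4 : ∀ j, ((‖y j - -(y o / ((N : ℂ) - 1))‖ ^ 2 : ℝ) : ℂ)
        = ((‖y j‖ ^ 2 : ℝ) : ℂ) + conj (y o) / ((N : ℂ) - 1) * y j
          + y o / ((N : ℂ) - 1) * conj (y j) + ((‖y o‖ ^ 2 : ℝ) : ℂ) / ((N : ℂ) - 1) ^ 2 := by
      intro j
      rw [Pool.Agent.Lib_helper25.PV.B7_normSq, Pool.Agent.Lib_helper25.PV.B7_normSq,
        Pool.Agent.Lib_helper25.PV.B7_normSq]
      simp only [map_sub, map_neg, map_div₀, map_natCast, map_one]
      field_simp
      ring
    rw [Finset.sum_congr rfl fun j _ => h4 j, Finset.sum_add_distrib, Finset.sum_add_distrib,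
      Finset.sum_add_distrib, ← Finset.mul_sum, ← Finset.mul_sum, ← map_sum, Finset.sum_const,
      nsmul_eq_mul, D_card (by omega), ← Complex.ofReal_sum]
    have h5 : ∑ j ∈ Finset.univ.erase o, y j = -y o := by
      rw [hs] at h1
      linear_combination h1
    have h6 : ∑ j ∈ Finset.univ.erase o, ‖y j‖ ^ 2 = N - ‖y o‖ ^ 2 := by
      rw [hq] at h2
      linarith
    rw [h5, h6]
    unfold spread
    have h7 : ((‖y o‖ ^ 2 : ℝ) : ℂ) = conj (y o) * y o := Pool.Agent.Lib_helper25.PV.B7_normSq _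
    push_cast at h7 ⊢
    rw [map_neg]
    field_simp
    linear_combination 2 * h7
  exact_mod_cast key

/-- the velocity of the outlier -/
theorem D_vel {N : ℕ} (hN : 3 ≤ N) (o : Fin N) {y : Conf N} (hs : ∑ i, y i = 0)
    (hq : ∑ i, ‖y i‖ ^ 2 = (N : ℝ)) (hV : spread o y ≤ 1 / 4) :
    ∃ e : ℂ, ‖e‖ ≤ spread o y ∧ vel y o = -(Complex.I / (2 * Real.pi)) *
      (((((N : ℝ) - 1) ^ 2 / (N * ‖y o‖ ^ 2) : ℝ) : ℂ) * y o + e) := by
  have hN3 : (3 : ℝ) ≤ N := by exact_mod_cast hN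
  have hN1 : (0 : ℝ) < (N : ℝ) - 1 := by linarith
  have hN1c : ((N : ℂ) - 1) ≠ 0 := by
    have := hN1.ne'
    exact_mod_cast this
  have hNc : (N : ℂ) ≠ 0 := by
    have : (N : ℝ) ≠ 0 := by linarith
    exact_mod_cast this
  set V := spread o y with hVdef
  set ζ : ℂ := -(y o / ((N : ℂ) - 1)) with hζ
  set A : ℂ := y o - ζ with hA
  have hAeq : A = y o * N / ((N : ℂ) - 1) := by
    rw [hA, hζ]
    field_simp
    ring
  have hu := D_sum_u hN o hs
  have hu2 := D_sum_sq hN o hs hq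
  rw [← hζ] at hu hu2
  rw [← hVdef] at hu2
  -- size of A
  have hqV : ‖y o‖ ^ 2 = ((N : ℝ) - 1) / N * (N - V) := by
    rw [hVdef]
    unfold spread
    field_simp
    ring
  have hA2 : ‖A‖ ^ 2 = N / ((N : ℝ) - 1) * (N - V) := by
    rw [hAeq, norm_div, norm_mul, div_pow, mul_pow, hqV, Complex.norm_natCast]
    have h1 : ‖(N : ℂ) - 1‖ = (N : ℝ) - 1 := by
      have h2 : ((N : ℂ) - 1) = (((N : ℝ) - 1 : ℝ) : ℂ) := by push_cast; ring
      rw [h2, Complex.norm_real, Real.norm_eq_abs, abs_of_pos hN1]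
    rw [h1]
    field_simp
  have hA32 : (3 : ℝ) / 2 ≤ ‖A‖ := by
    have h1 : (9 : ℝ) / 4 ≤ ‖A‖ ^ 2 := by
      rw [hA2]
      have h2 : (1 : ℝ) ≤ N / ((N : ℝ) - 1) := by
        rw [le_div_iff₀ hN1]
        linarith
      have h3 : (11 : ℝ) / 4 ≤ N - V := by linarith
      nlinarith
    nlinarith [norm_nonneg A]
  have hA0 : A ≠ 0 := by
    intro h
    rw [h, norm_zero] at hA32
    norm_num at hA32
  have hAc : conj A ≠ 0 := (map_ne_zero _).mpr hA0
  have huj : ∀ j ∈ Finset.univ.erase o, ‖y j - ζ‖ ≤ 1 / 2 := by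
    intro j hj
    have h1 : ‖y j - ζ‖ ^ 2 ≤ V := by
      rw [← hu2]
      exact Finset.single_le_sum (f := fun j => ‖y j - ζ‖ ^ 2) (fun j _ => sq_nonneg _) hj
    nlinarith [norm_nonneg (y j - ζ)]
  have hAu : ∀ j ∈ Finset.univ.erase o, 1 ≤ ‖A - (y j - ζ)‖ := by
    intro j hj
    have h1 := norm_sub_norm_le A (y j - ζ)
    have h2 := huj j hj
    linarith
  refine ⟨∑ j ∈ Finset.univ.erase o, conj (y j - ζ) ^ 2 / (conj A ^ 2 * conj (A - (y j - ζ))),
    ?_, ?_⟩
  · refine (norm_sum_le _ _).trans ?_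
    rw [← hu2]
    refine Finset.sum_le_sum fun j hj => ?_
    rw [norm_div, norm_mul, norm_pow, norm_pow, Complex.norm_conj, Complex.norm_conj,
      Complex.norm_conj]
    have h1 := hAu j hj
    refine div_le_self (sq_nonneg _) ?_
    have h2 : (1 : ℝ) ≤ ‖A‖ ^ 2 := by nlinarith
    nlinarith
  · unfold vel
    congr 1
    have h1 : ∀ j ∈ Finset.univ.erase o, 1 / conj (y o - y j)
        = 1 / conj A + conj (y j - ζ) / conj A ^ 2
          + conj (y j - ζ) ^ 2 / (conj A ^ 2 * conj (A - (y j - ζ))) := by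
      intro j hj
      have h2 : y o - y j = A - (y j - ζ) := by rw [hA]; ring
      have h3 : conj (A - (y j - ζ)) ≠ 0 := by
        refine (map_ne_zero _).mpr fun h => ?_
        have := hAu j hj
        rw [h, norm_zero] at this
        norm_num at this
      rw [h2]
      rw [map_sub] at h3 ⊢
      field_simp
      ring
    rw [Finset.sum_congr rfl h1, Finset.sum_add_distrib, Finset.sum_add_distrib, Finset.sum_const,
      nsmul_eq_mul, D_card (by omega), ← Finset.sum_div, ← map_sum, hu, map_zero, zero_div,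
      add_zero]
    congr 1
    have hyo : y o ≠ 0 := by
      intro h
      rw [hAeq, h] at hA0
      simp at hA0
    have h4 : conj A = conj (y o) * N / ((N : ℂ) - 1) := by
      rw [hAeq]
      simp only [map_div₀, map_mul, map_sub, map_natCast, map_one]
    have h5 : ((‖y o‖ : ℝ) : ℂ) ^ 2 = conj (y o) * y o := (Complex.conj_mul' _).symm
    have hyc : conj (y o) ≠ 0 := (map_ne_zero _).mpr hyo
    rw [h4]
    push_cast
    rw [h5]
    field_simp

theorem D_om_pos {N : ℕ} (hN : 3 ≤ N) : 0 < Om N := by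
  have hN3 : (3 : ℝ) ≤ N := by exact_mod_cast hN
  have := Real.pi_pos
  unfold Om
  apply div_pos
  · linarith
  · positivity

theorem D_per_pos {N : ℕ} (hN : 3 ≤ N) : 0 < per N := by
  have h1 := D_om_pos hN
  have := Real.pi_pos
  unfold per
  positivity

theorem D_window (N : ℕ) (hN : 3 ≤ N) : ∃ C > 0, ∃ ρ₀ > 0, ∀ (w : ℝ → Conf N) (o : Fin N) (ρ : ℝ),
    Motion w → w 0 ∈ Gam N → 0 < ρ → ρ ≤ ρ₀ → spread o (w 0) ≤ ρ ^ 2 →
    ∃ b : ℂ, ‖b‖ = 1 ∧ ∀ t ∈ Icc 0 (per N),
      ‖w t - ideal N o (Complex.exp (-(Om N * t * Complex.I)) * b)‖ ≤ C * ρ := by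
  have hN3 : (3 : ℝ) ≤ N := by exact_mod_cast hN
  have hN1 : (0 : ℝ) < (N : ℝ) - 1 := by linarith
  have hN0 : (0 : ℝ) < (N : ℝ) := by linarith
  have hOm := D_om_pos hN
  have hper := D_per_pos hN
  have hpi := Real.pi_gt_three
  set K : ℝ := Real.exp (((N : ℝ) + 1) * per N) with hK
  have hK1 : 1 ≤ K := by
    rw [hK]
    exact Real.one_le_exp (by positivity)
  have hK0 : 0 < K := by linarith
  refine ⟨per N * K + 1 + Real.sqrt K, by positivity, 1 / (2 * Real.sqrt K), by positivity, ?_⟩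
  intro w o ρ hw hG hρ hρ0 hsp
  have hsK : 0 < Real.sqrt K := Real.sqrt_pos.mpr hK0
  have hρK : ρ ^ 2 * K ≤ 1 / 4 := by
    have h1 : ρ * Real.sqrt K ≤ 1 / 2 := by
      rw [le_div_iff₀ (by positivity)] at hρ0
      linarith
    have h2 : 0 ≤ ρ * Real.sqrt K := by positivity
    have h3 : (ρ * Real.sqrt K) ^ 2 = ρ ^ 2 * K := by rw [mul_pow, Real.sq_sqrt hK0.le]
    nlinarith
  have hρ1 : ρ ≤ 1 := by nlinarith
  -- conservation
  have hs : ∀ t, ∑ i, w t i = 0 := by
    intro t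
    have h1 := Pool.Agent.Lib_helper25.PV.B7_centre hw t
    unfold centre at h1
    rw [hG.2.1, zero_div] at h1
    have h2 : (N : ℂ) ≠ 0 := by exact_mod_cast hN0.ne'
    exact (div_eq_zero_iff.mp h1).resolve_right h2
  have hq : ∀ t, ∑ i, ‖w t i‖ ^ 2 = (N : ℝ) := by
    intro t
    have h1 := Pool.Agent.Lib_helper25.PV.B7_inertia hw t
    unfold inertia at h1
    rw [h1]
    have h2 := hG.2.2
    rw [div_eq_iff hN0.ne', one_mul] at h2
    exact h2
  have hV0 : ∀ t, 0 ≤ spread o (w t) := by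
    intro t
    rw [← D_sum_sq hN o (hs t) (hq t)]
    positivity
  have hqV : ∀ t, ‖w t o‖ ^ 2 = ((N : ℝ) - 1) / N * (N - spread o (w t)) := by
    intro t
    unfold spread
    field_simp
    ring
  have hwo : ∀ t, ‖w t o‖ ≤ N := by
    intro t
    have h1 : ‖w t o‖ ^ 2 ≤ N := by
      rw [← hq t]
      exact Finset.single_le_sum (f := fun j => ‖w t j‖ ^ 2) (fun j _ => sq_nonneg _)
        (Finset.mem_univ o)
    nlinarith [norm_nonneg (w t o)]
  -- derivative of the spread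
  set V' : ℝ → ℝ := fun t => -(N / ((N : ℝ) - 1) * (2 * inner ℝ (w t o) (vel (w t) o))) with hV'
  have hVd : ∀ t, HasDerivAt (fun t => spread o (w t)) (V' t) t := by
    intro t
    have h1 := ((hw t).2 o).norm_sq
    have h2 := (h1.const_mul ((N : ℝ) / ((N : ℝ) - 1))).const_sub (N : ℝ)
    exact h2
  have hV'b : ∀ t, spread o (w t) ≤ 1 / 4 → V' t ≤ N * spread o (w t) := by
    intro t ht
    obtain ⟨e, he, hv⟩ := D_vel hN o (hs t) (hq t) ht
    have h1 : inner ℝ (w t o) (vel (w t) o)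
        = (-(Complex.I / (2 * Real.pi)) * (conj (w t o) * e)).re := by
      have h0 : inner ℝ (w t o) (vel (w t) o) = (conj (w t o) * vel (w t) o).re := by
        rw [Complex.inner, mul_comm]
      rw [h0, hv]
      have h2 : conj (w t o) * (-(Complex.I / (2 * Real.pi)) *
          (((((N : ℝ) - 1) ^ 2 / (N * ‖w t o‖ ^ 2) : ℝ) : ℂ) * w t o + e))
          = (((-(((N : ℝ) - 1) ^ 2 / (N * ‖w t o‖ ^ 2)) * ‖w t o‖ ^ 2 / (2 * Real.pi) : ℝ)) : ℂ)
              * Complex.I + -(Complex.I / (2 * Real.pi)) * (conj (w t o) * e) := by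
        have h3 : ((‖w t o‖ ^ 2 : ℝ) : ℂ) = conj (w t o) * w t o :=
          Pool.Agent.Lib_helper25.PV.B7_normSq _
        have h4 : (((-(((N : ℝ) - 1) ^ 2 / (N * ‖w t o‖ ^ 2)) * ‖w t o‖ ^ 2 / (2 * Real.pi) : ℝ)) : ℂ)
            = -((((N : ℝ) - 1) ^ 2 / (N * ‖w t o‖ ^ 2) : ℝ) : ℂ) * ((‖w t o‖ ^ 2 : ℝ) : ℂ)
              / (2 * Real.pi) := by
          rw [Complex.ofReal_div, Complex.ofReal_mul, Complex.ofReal_neg, Complex.ofReal_mul]
          push_cast
          ring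
        rw [h4, h3]
        ring
      rw [h2, Complex.add_re, Complex.re_ofReal_mul, Complex.I_re, mul_zero, zero_add]
    have h5 : |inner ℝ (w t o) (vel (w t) o)| ≤ ‖w t o‖ * spread o (w t) / (2 * Real.pi) := by
      rw [h1]
      refine (Complex.abs_re_le_norm _).trans ?_
      rw [norm_mul, norm_neg, norm_div, Complex.norm_I, norm_mul, norm_mul, Complex.norm_conj,
        Complex.norm_real, Real.norm_eq_abs, abs_of_pos Real.pi_pos]
      have h6 : ‖(2 : ℂ)‖ = 2 := by simp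
      rw [h6]
      have h7 : 0 ≤ ‖w t o‖ := norm_nonneg _
      calc 1 / (2 * Real.pi) * (‖w t o‖ * ‖e‖) ≤ 1 / (2 * Real.pi) * (‖w t o‖ * spread o (w t)) := by
            gcongr
        _ = ‖w t o‖ * spread o (w t) / (2 * Real.pi) := by ring
    have h8 := neg_abs_le (inner ℝ (w t o) (vel (w t) o))
    have h9 : ‖w t o‖ * spread o (w t) / (2 * Real.pi) ≤ N * spread o (w t) / 6 := by
      have h10 : 0 ≤ N * spread o (w t) := mul_nonneg hN0.le (hV0 t)
      have h11 : ‖w t o‖ * spread o (w t) ≤ N * spread o (w t) :=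
        mul_le_mul_of_nonneg_right (hwo t) (hV0 t)
      refine (div_le_div_of_nonneg_right h11 (by positivity)).trans ?_
      exact div_le_div_of_nonneg_left h10 (by norm_num) (by linarith)
    have h12 : (N : ℝ) / ((N : ℝ) - 1) ≤ 3 / 2 := by
      rw [div_le_div_iff₀ hN1 (by norm_num)]
      linarith
    have h13 : 0 ≤ (N : ℝ) / ((N : ℝ) - 1) := by positivity
    have h14 : 0 ≤ N * spread o (w t) := mul_nonneg hN0.le (hV0 t)
    simp only [hV']
    have h15 : -(inner ℝ (w t o) (vel (w t) o)) ≤ N * spread o (w t) / 6 := by linarith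
    have h16 : (N : ℝ) / ((N : ℝ) - 1) * -(inner ℝ (w t o) (vel (w t) o))
        ≤ 3 / 2 * (N * spread o (w t) / 6) := by
      refine (mul_le_mul_of_nonneg_left h15 h13).trans ?_
      exact mul_le_mul_of_nonneg_right h12 (by positivity)
    nlinarith
  -- the spread stays small
  have hVt : ∀ t ∈ Icc 0 (per N), spread o (w t) ≤ ρ ^ 2 * K := by
    have hB : ∀ t : ℝ, HasDerivAt (fun t : ℝ => ρ ^ 2 * Real.exp (((N : ℝ) + 1) * t))
        (((N : ℝ) + 1) * (ρ ^ 2 * Real.exp (((N : ℝ) + 1) * t))) t := by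
      intro t
      have h1 : HasDerivAt (fun t : ℝ => ((N : ℝ) + 1) * t) ((N : ℝ) + 1) t := by
        simpa using (hasDerivAt_id t).const_mul ((N : ℝ) + 1)
      refine (h1.exp.const_mul (ρ ^ 2)).congr_deriv ?_
      ring
    have hBle : ∀ t ∈ Icc 0 (per N), ρ ^ 2 * Real.exp (((N : ℝ) + 1) * t) ≤ ρ ^ 2 * K := by
      intro t ht
      refine mul_le_mul_of_nonneg_left ?_ (sq_nonneg _)
      rw [hK]
      refine Real.exp_le_exp.mpr ?_
      exact mul_le_mul_of_nonneg_left ht.2 (by positivity)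
    have h1 := image_le_of_deriv_right_lt_deriv_boundary' (a := 0) (b := per N)
      (f := fun t => spread o (w t)) (f' := V')
      (B := fun t : ℝ => ρ ^ 2 * Real.exp (((N : ℝ) + 1) * t))
      (B' := fun t : ℝ => ((N : ℝ) + 1) * (ρ ^ 2 * Real.exp (((N : ℝ) + 1) * t)))
      (fun t _ => (hVd t).continuousAt.continuousWithinAt)
      (fun t _ => (hVd t).hasDerivWithinAt) (by simpa using hsp)
      (fun t _ => (hB t).continuousAt.continuousWithinAt)
      (fun t _ => (hB t).hasDerivWithinAt) (by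
        intro t ht heq
        have h2 := hBle t (Ico_subset_Icc_self ht)
        have h3 : spread o (w t) ≤ 1 / 4 := by
          rw [heq]
          linarith
        have h4 := hV'b t h3
        rw [heq] at h4
        have h5 : 0 < ρ ^ 2 * Real.exp (((N : ℝ) + 1) * t) := by positivity
        linarith)
    intro t ht
    exact (h1 ht).trans (hBle t ht)
  have hV4 : ∀ t ∈ Icc 0 (per N), spread o (w t) ≤ 1 / 4 := fun t ht => (hVt t ht).trans hρK
  have hq1 : ∀ t ∈ Icc 0 (per N), 1 ≤ ‖w t o‖ ^ 2 := by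
    intro t ht
    rw [hqV t]
    have h1 := hV4 t ht
    have h2 : (2 : ℝ) / 3 ≤ ((N : ℝ) - 1) / N := by
      rw [div_le_div_iff₀ (by norm_num) hN0]
      linarith
    have h3 : (11 : ℝ) / 4 ≤ N - spread o (w t) := by linarith
    nlinarith
  have hn1 : ∀ t ∈ Icc 0 (per N), 1 ≤ ‖w t o‖ := by
    intro t ht
    have h1 := hq1 t ht
    nlinarith [norm_nonneg (w t o)]
  -- the outlier in the rotating frame
  set h : ℝ → ℂ := fun t => Complex.exp (Om N * t * Complex.I) * w t o with hh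
  have hhd : ∀ t : ℝ, HasDerivAt h (Complex.exp (Om N * t * Complex.I) *
      (Complex.I * Om N * w t o + vel (w t) o)) t := by
    intro t
    have h1 : HasDerivAt (fun t : ℝ => (Om N : ℂ) * (t : ℂ) * Complex.I)
        ((Om N : ℂ) * Complex.I) t := by
      have h2 : HasDerivAt (fun t : ℝ => (t : ℂ)) 1 t := Complex.ofRealCLM.hasDerivAt
      have h3 := (h2.const_mul (Om N : ℂ)).mul_const Complex.I
      simpa using h3
    refine (h1.cexp.mul ((hw t).2 o)).congr_deriv ?_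
    ring
  have hexp : ∀ t : ℝ, ‖Complex.exp (Om N * t * Complex.I)‖ = 1 := by
    intro t
    rw [← Complex.ofReal_mul, Complex.norm_exp_ofReal_mul_I]
  have hhb : ∀ t ∈ Icc 0 (per N), ‖Complex.exp (Om N * t * Complex.I) *
      (Complex.I * Om N * w t o + vel (w t) o)‖ ≤ K * ρ ^ 2 := by
    intro t ht
    rw [norm_mul, hexp, one_mul]
    obtain ⟨e, he, hv⟩ := D_vel hN o (hs t) (hq t) (hV4 t ht)
    set c : ℝ := ((N : ℝ) - 1) ^ 2 / (N * ‖w t o‖ ^ 2) with hc
    have h1 : Complex.I * Om N * w t o + vel (w t) o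
        = (Complex.I / (2 * Real.pi)) * (((2 * Real.pi * Om N - c : ℝ) : ℂ) * w t o - e) := by
      rw [hv]
      have hpc : (Real.pi : ℂ) ≠ 0 := by exact_mod_cast Real.pi_ne_zero
      push_cast
      field_simp
      ring
    have h2 : |2 * Real.pi * Om N - c| * ‖w t o‖ ≤ spread o (w t) := by
      have hqp : 0 < ‖w t o‖ ^ 2 := by linarith [hq1 t ht]
      have h3 : 2 * Real.pi * Om N - c
          = -(((N : ℝ) - 1) ^ 2 / N ^ 2 * (spread o (w t) / ‖w t o‖ ^ 2)) := by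
        rw [hc]
        unfold Om
        have h4 := hqV t
        have h5 : spread o (w t) = N - N / ((N : ℝ) - 1) * ‖w t o‖ ^ 2 := rfl
        have hne : ‖w t o‖ ≠ 0 := by
          have := hn1 t ht
          linarith
        rw [h5]
        field_simp
        ring
      have h6 : ((N : ℝ) - 1) ^ 2 / N ^ 2 ≤ 1 := by
        rw [div_le_one (by positivity)]
        nlinarith
      have h7 : spread o (w t) / ‖w t o‖ ^ 2 * ‖w t o‖ ≤ spread o (w t) := by
        have h8 : spread o (w t) / ‖w t o‖ ^ 2 * ‖w t o‖ = spread o (w t) / ‖w t o‖ := by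
          have : ‖w t o‖ ≠ 0 := by
            have := hn1 t ht
            linarith
          field_simp
        rw [h8]
        exact div_le_self (hV0 t) (hn1 t ht)
      rw [h3, abs_neg, abs_of_nonneg (mul_nonneg (by positivity) (div_nonneg (hV0 t) hqp.le)),
        mul_assoc]
      have h9 : 0 ≤ spread o (w t) / ‖w t o‖ ^ 2 * ‖w t o‖ :=
        mul_nonneg (div_nonneg (hV0 t) hqp.le) (norm_nonneg _)
      calc ((N : ℝ) - 1) ^ 2 / N ^ 2 * (spread o (w t) / ‖w t o‖ ^ 2 * ‖w t o‖)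
          ≤ 1 * (spread o (w t) / ‖w t o‖ ^ 2 * ‖w t o‖) := mul_le_mul_of_nonneg_right h6 h9
        _ ≤ spread o (w t) := by rw [one_mul]; exact h7
    rw [h1, norm_mul, norm_div, Complex.norm_I, norm_mul, Complex.norm_real, Real.norm_eq_abs,
      abs_of_pos Real.pi_pos]
    have h10 : ‖(2 : ℂ)‖ = 2 := by simp
    rw [h10]
    have h11 : ‖((2 * Real.pi * Om N - c : ℝ) : ℂ) * w t o - e‖ ≤ 2 * spread o (w t) := by
      refine (norm_sub_le _ _).trans ?_
      rw [norm_mul, Complex.norm_real, Real.norm_eq_abs]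
      linarith
    have h12 : 1 / (2 * Real.pi) ≤ 1 / 2 := by
      rw [div_le_div_iff₀ (by positivity) (by norm_num)]
      linarith
    have h13 := hV0 t
    have h14 := hVt t ht
    calc 1 / (2 * Real.pi) * ‖((2 * Real.pi * Om N - c : ℝ) : ℂ) * w t o - e‖
        ≤ 1 / 2 * (2 * spread o (w t)) := mul_le_mul h12 h11 (norm_nonneg _) (by norm_num)
      _ = spread o (w t) := by ring
      _ ≤ K * ρ ^ 2 := by linarith
  have hht : ∀ t ∈ Icc 0 (per N), ‖h t - h 0‖ ≤ per N * K * ρ := by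
    intro t ht
    have h1 := norm_image_sub_le_of_norm_deriv_le_segment'
      (fun u (_ : u ∈ Icc 0 (per N)) => (hhd u).hasDerivWithinAt)
      (fun u hu => hhb u (Ico_subset_Icc_self hu)) t ht
    refine h1.trans ?_
    rw [sub_zero]
    have h2 : K * ρ ^ 2 * t ≤ K * ρ ^ 2 * per N :=
      mul_le_mul_of_nonneg_left ht.2 (by positivity)
    have h3 : K * ρ ^ 2 * per N ≤ per N * K * ρ := by
      have h4 : ρ ^ 2 ≤ ρ := by nlinarith
      have h5 : 0 ≤ per N * K := by positivity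
      nlinarith
    linarith
  have h0mem : (0 : ℝ) ∈ Icc 0 (per N) := ⟨le_rfl, hper.le⟩
  have hn0 : 1 ≤ ‖w 0 o‖ := hn1 0 h0mem
  have hn0c : ((‖w 0 o‖ : ℝ) : ℂ) ≠ 0 := by
    have : ‖w 0 o‖ ≠ 0 := by linarith
    exact_mod_cast this
  set b : ℂ := w 0 o / ((‖w 0 o‖ : ℝ) : ℂ) with hb
  have hbn : ‖b‖ = 1 := by
    rw [hb, norm_div, Complex.norm_real, norm_norm, div_self (by linarith)]
  have hwb : w 0 o = ((‖w 0 o‖ : ℝ) : ℂ) * b := by
    rw [hb]
    field_simp
  set S : ℝ := Real.sqrt ((N : ℝ) - 1) with hS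
  have hS2 : S ^ 2 = (N : ℝ) - 1 := Real.sq_sqrt hN1.le
  have hS0 : 0 < S := Real.sqrt_pos.mpr hN1
  have hdiff0 : ‖w 0 o - (S : ℂ) * b‖ ≤ ρ := by
    have h1 : w 0 o - (S : ℂ) * b = ((‖w 0 o‖ - S : ℝ) : ℂ) * b := by
      conv_lhs => rw [hwb]
      push_cast
      ring
    rw [h1, norm_mul, hbn, mul_one, Complex.norm_real, Real.norm_eq_abs]
    have h2 : (‖w 0 o‖ - S) * (‖w 0 o‖ + S) = -(((N : ℝ) - 1) / N * spread o (w 0)) := by
      have h3 := hqV 0
      have h4 : (‖w 0 o‖ - S) * (‖w 0 o‖ + S) = ‖w 0 o‖ ^ 2 - S ^ 2 := by ring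
      rw [h4, h3, hS2]
      field_simp
      ring
    have h5 : |‖w 0 o‖ - S| * (‖w 0 o‖ + S) ≤ spread o (w 0) := by
      have h6 : 0 < ‖w 0 o‖ + S := by linarith
      have h7 : |‖w 0 o‖ - S| * (‖w 0 o‖ + S) = |(‖w 0 o‖ - S) * (‖w 0 o‖ + S)| := by
        rw [abs_mul, abs_of_pos h6]
      have h8 : 0 ≤ ((N : ℝ) - 1) / N * spread o (w 0) :=
        mul_nonneg (by positivity) (hV0 0)
      rw [h7, h2, abs_neg, abs_of_nonneg h8]
      have h9 : ((N : ℝ) - 1) / N ≤ 1 := by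
        rw [div_le_one hN0]
        linarith
      exact mul_le_of_le_one_left (hV0 0) h9
    have h10 : |‖w 0 o‖ - S| ≤ |‖w 0 o‖ - S| * (‖w 0 o‖ + S) :=
      le_mul_of_one_le_right (abs_nonneg _) (by linarith)
    have h11 : ρ ^ 2 ≤ ρ := by nlinarith
    linarith
  refine ⟨b, hbn, fun t ht => ?_⟩
  set Eb : ℂ := Complex.exp (-(Om N * t * Complex.I)) * b with hEb
  have ho : ‖w t o - (S : ℂ) * Eb‖ ≤ (per N * K + 1) * ρ := by
    have h1 : w t o - (S : ℂ) * Eb = Complex.exp (-(Om N * t * Complex.I)) *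
        ((h t - h 0) + (w 0 o - (S : ℂ) * b)) := by
      have h2 : Complex.exp (-(Om N * t * Complex.I)) * Complex.exp (Om N * t * Complex.I) = 1 := by
        rw [← Complex.exp_add]
        simp
      have h3 : h 0 = w 0 o := by simp [hh]
      rw [h3, hEb]
      simp only [hh]
      linear_combination (-w t o) * h2
    have h4 : ‖Complex.exp (-(Om N * t * Complex.I))‖ = 1 := by
      have h5 : -((Om N : ℂ) * t * Complex.I) = ((-(Om N * t) : ℝ) : ℂ) * Complex.I := by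
        push_cast
        ring
      rw [h5, Complex.norm_exp_ofReal_mul_I]
    rw [h1, norm_mul, h4, one_mul]
    refine (norm_add_le _ _).trans ?_
    have := hht t ht
    linarith
  rw [pi_norm_le_iff_of_nonneg (by positivity)]
  intro j
  have hCo : (per N * K + 1) * ρ ≤ (per N * K + 1 + Real.sqrt K) * ρ := by
    have : 0 ≤ Real.sqrt K * ρ := by positivity
    nlinarith
  have hidS : (Real.sqrt ((N : ℝ) - 1) : ℂ) = (S : ℂ) := rfl
  show ‖w t j - ideal N o Eb j‖ ≤ _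
  unfold ideal
  by_cases hj : j = o
  · subst hj
    rw [if_pos rfl]
    exact ho.trans hCo
  · rw [if_neg hj]
    have hSc : (S : ℂ) ≠ 0 := by exact_mod_cast hS0.ne'
    have hN1c : ((N : ℂ) - 1) ≠ 0 := by
      have := hN1.ne'
      exact_mod_cast this
    have hS2c : (S : ℂ) ^ 2 = (N : ℂ) - 1 := by
      have h1 : ((S ^ 2 : ℝ) : ℂ) = (((N : ℝ) - 1 : ℝ) : ℂ) := by rw [hS2]
      push_cast at h1
      exact h1
    have h1 : w t j - -((S : ℂ)⁻¹ * Eb) = (w t j - -(w t o / ((N : ℂ) - 1)))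
        - (w t o - (S : ℂ) * Eb) / ((N : ℂ) - 1) := by
      have h2 : (S : ℂ)⁻¹ = (S : ℂ) / ((N : ℂ) - 1) := by
        rw [← hS2c]
        field_simp
      rw [h2]
      ring
    rw [h1]
    refine (norm_sub_le _ _).trans ?_
    have h3 : ‖w t j - -(w t o / ((N : ℂ) - 1))‖ ≤ Real.sqrt K * ρ := by
      have h4 : ‖w t j - -(w t o / ((N : ℂ) - 1))‖ ^ 2 ≤ spread o (w t) := by
        rw [← D_sum_sq hN o (hs t) (hq t)]
        exact Finset.single_le_sum (f := fun j => ‖w t j - -(w t o / ((N : ℂ) - 1))‖ ^ 2)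
          (fun j _ => sq_nonneg _) (Finset.mem_erase.mpr ⟨hj, Finset.mem_univ j⟩)
      have h5 := hVt t ht
      have h6 : (Real.sqrt K * ρ) ^ 2 = ρ ^ 2 * K := by
        rw [mul_pow, Real.sq_sqrt hK0.le]
        ring
      refine le_of_sq_le_sq ?_ (by positivity)
      rw [h6]
      linarith
    have h7 : ‖(w t o - (S : ℂ) * Eb) / ((N : ℂ) - 1)‖ ≤ (per N * K + 1) * ρ := by
      rw [norm_div]
      have h8 : ‖(N : ℂ) - 1‖ = (N : ℝ) - 1 := by
        have h9 : ((N : ℂ) - 1) = (((N : ℝ) - 1 : ℝ) : ℂ) := by push_cast; ring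
        rw [h9, Complex.norm_real, Real.norm_eq_abs, abs_of_pos hN1]
      rw [h8]
      exact (div_le_self (norm_nonneg _) (by linarith)).trans ho
    linarith

end

end Pool.Agent.Lib_helper12.HE
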